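import Mathlib

/-!
# Hodge and Tate classes, Mumford-Tate and monodromy groups, without semisimplicity

The notation is that of the problem. `Γ` is the Galois group of the number field `L`, and `K` is an
algebraic closure of `ℚ_ℓ`. `M` is the group of the `K`-points of the Mumford-Tate group of all
polarizable rational Hodge structures (the tensor automorphisms of the fibre functor). Both groups
act on `A = H ⊗ K`, where `H` is `H^i(Y)(j)` for a smooth projective variety `Y` over `L`. The
vectors fixed by `M` are the `K`-span `A.Hodge` of the Hodge classes, the image of `M` is the group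
`A.MT` of the `K`-points of the Mumford-Tate group of `H`, the vectors fixed by a subgroup of finite
index of `Γ` are the Tate classes `A.Tate`, and `A.Mon` is the group of the `K`-points of the identity
component of the Zariski closure of the image of `Γ`.

Let `𝒱` be a class of smooth projective varieties over `L` which is closed under products, for
example all varieties, or all products `Y^k × A` with a fixed `Y` and with Weil restrictions `A` of
abelian varieties with complex multiplication. Let `C` be the class of all direct factors (for both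
actions) of finite sums of spaces `H^i(Y)(j) ⊗ K`, `Y` in `𝒱`. It is a `TensorClass` by the
theorem of Künneth and Poincaré duality, and `HodgeSemisimple` because of the polarizations. By
purity there are no Hodge classes and no Tate classes if `i ≠ 2j`, so `A.Hodge = A.Tate` for all `A`
in `C` says that `𝓗_{j,k} = 𝓣_{j,k}` for all `Y` in `𝒱` and all `j`, `k`.

The condition `LinesAreQuotients C` is a theorem if `𝒱` contains the abelian varieties with complex
multiplication as above: a line in `H^i(Y)(j) ⊗ K` which is stable under an open subgroup is a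
Hodge-Tate representation (Faltings), hence locally algebraic (Tate, Serre), so it is given by
an algebraic Hecke character and occurs in the cohomology of abelian varieties with complex
multiplication (Serre, Deligne). If the representations of `Γ` in `C` are semisimple the condition
is also satisfied (this is part of the theorem below).

It is not known whether the representations of `Γ` on the cohomology are semisimple, and an equality
of invariants does not determine a group which is not reductive (a Borel subgroup has the same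
invariants as the whole group). The theorem says:
(1) `𝓣 ⊆ 𝓗` for all `Y` in `𝒱` if and only if `MT ⊆ G_ℓ°` for all cohomology groups, and
`𝓗 ⊆ 𝓣` for all `Y` in `𝒱` if and only if `G_ℓ° ⊆ MT`.
(2) Hence `𝓗 = 𝓣` for all `Y` in `𝒱` if and only if `G_ℓ° = MT` for all cohomology groups, and this
implies that all the representations of `Γ` are semisimple. If one only knows `𝓗 = 𝓣` (for a class
`𝒱` which need not contain any varieties with complex multiplication), then `G_ℓ° = MT` is equivalent
to semisimplicity, to `MT ⊆ G_ℓ°` and to `LinesAreQuotients`.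
(3) If `MT ⊆ G_ℓ°` (or `⊇`) for the group `H^{2j}(Y)` without the twist then `𝓣 ⊆ 𝓗` (or `⊇`) for
`H^{2j}(Y)(j)`.
So question Q1 for all varieties (or for all `Y^k × A`, `Y` fixed) is equivalent to the
Mumford-Tate conjecture in the form `G_ℓ° = MT`, including the semisimplicity.

Idea for `𝓣 ⊆ 𝓗 ⇒ MT ⊆ G_ℓ°`: let `I` be the space of the polynomials of degree at most `d` on
`End(H)` which vanish on a subgroup `U` of finite index of `Γ`. It is stable under `U`, so its
line `L` in a space of alternating forms is stable under `U`. It is the image of a map `f` from a member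
`N` of `C` which commutes with an open subgroup. So `f` is a Tate class, hence a Hodge class, and commutes
with `M`. Hence `L` and `I` are stable under `M` and the polynomials in `I` vanish on `M`. (B. Moonen
has used such lines to prove that the Tate conjecture implies the semisimplicity.)
-/

namespace Pool.Agent.Results.MP_6c781a_ag.ClassesAndGroups

open Module

noncomputable section

/-- A finite-dimensional vector space `V` over `K` with representations of the groups `M` and `Γ`
(which need not commute). -/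
structure Realization (K M Γ : Type) [Field K] [Group M] [Group Γ] where
  V : Type
  [acg : AddCommGroup V]
  [mod : Module K V]
  [fin : FiniteDimensional K V]
  hodge : Representation K M V
  galois : Representation K Γ V

attribute [instance] Realization.acg Realization.mod Realization.fin

section zar

variable (K : Type) [Field K] (V : Type) [AddCommGroup V] [Module K V]

/-- The polynomial functions on `End V`: the algebra generated by the linear forms. -/
def polyFun : Subalgebra K (Module.End K V → K) :=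
  Algebra.adjoin K {f | ∃ l : Dual K (Module.End K V), f = fun x => l x}

variable {K V}

/-- The Zariski closure in `GL(V)` of a set of endomorphisms of `V`. -/
def zar (S : Set (Module.End K V)) : Set (LinearMap.GeneralLinearGroup K V) :=
  {g | ∀ f ∈ polyFun K V, (∀ s ∈ S, f s = 0) → f (g : Module.End K V) = 0}

theorem polyFun_noeth [FiniteDimensional K V] : IsNoetherianRing (polyFun K V) := by
  have h1 : (polyFun K V).FG := by
    let φ : Dual K (Module.End K V) →ₗ[K] (Module.End K V → K) :=
      { toFun := fun l => fun x => l x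
        map_add' := fun _ _ => rfl
        map_smul' := fun _ _ => rfl }
    obtain ⟨s, hs⟩ : (LinearMap.range φ).FG := by
      rw [← Submodule.map_top]
      exact Module.Finite.fg_top.map φ
    refine ⟨s, le_antisymm ?_ ?_⟩
    · rw [Algebra.adjoin_le_iff]
      intro f hf
      have h2 : f ∈ LinearMap.range φ := hs ▸ Submodule.subset_span hf
      obtain ⟨l, rfl⟩ := h2
      exact Algebra.subset_adjoin ⟨l, rfl⟩
    · refine Algebra.adjoin_le ?_
      rintro _ ⟨l, rfl⟩
      have h2 : (fun x : Module.End K V => l x) ∈ LinearMap.range φ := ⟨l, rfl⟩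
      rw [← hs] at h2
      exact Algebra.span_le_adjoin K _ h2
  have : Algebra.FiniteType K (polyFun K V) := (polyFun K V).fg_iff_finiteType.1 h1
  exact Algebra.FiniteType.isNoetherianRing K _

end zar

/-! ### The alternating form of a subspace -/

section alt

variable {K : Type} [Field K] {V : Type} [AddCommGroup V] [Module K V] [FiniteDimensional K V]

/-- An alternating form which vanishes if one argument is in `W`, and not if the arguments are a
basis modulo `W`. -/
def formOf (W : Submodule K V) : V [⋀^Fin (finrank K (V ⧸ W))]→ₗ[K] K :=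
  (finBasis K (V ⧸ W)).det.compLinearMap W.mkQ

theorem formOf_ne (W : Submodule K V) : formOf W ≠ 0 := by
  intro h
  choose v hv using fun i => Submodule.mkQ_surjective W (finBasis K (V ⧸ W) i)
  have h1 : formOf W v = 0 := by rw [h]; rfl
  have h2 : formOf W v = (finBasis K (V ⧸ W)).det fun i => W.mkQ (v i) := rfl
  rw [h2, funext hv, Basis.det_self] at h1
  exact one_ne_zero h1

theorem formOf_comp (W : Submodule K V) {g : V →ₗ[K] V} (hg : ∀ x ∈ W, g x ∈ W) :
    ∃ c : K, (formOf W).compLinearMap g = c • formOf W := by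
  have h1 := ((finBasis K (V ⧸ W)).det.compLinearMap (W.mapQ W g hg)).eq_smul_basis_det
    (finBasis K (V ⧸ W))
  refine ⟨((finBasis K (V ⧸ W)).det.compLinearMap (W.mapQ W g hg)) (finBasis K (V ⧸ W)), ?_⟩
  ext v
  exact congrArg (fun F : (V ⧸ W) [⋀^Fin (finrank K (V ⧸ W))]→ₗ[K] K =>
    F fun i => W.mkQ (v i)) h1

theorem mem_of_formOf (W : Submodule K V) {x : V}
    (h : ∀ i v, formOf W (Function.update v i x) = 0) : x ∈ W := by
  set b := finBasis K (V ⧸ W) with hb
  choose v hv using fun i => Submodule.mkQ_surjective W (b i)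
  have h1 : W.mkQ x = 0 := by
    rw [← b.repr.map_eq_zero_iff]
    ext i
    have h2 : formOf W (Function.update v i x) = b.det (Function.update b i (W.mkQ x)) := by
      have e : (fun j => W.mkQ (Function.update v i x j)) = Function.update b i (W.mkQ x) := by
        funext j
        by_cases hj : j = i
        · subst hj
          rw [Function.update_self, Function.update_self]
        · rw [Function.update_of_ne hj, Function.update_of_ne hj, hv]
      change b.det (fun j => W.mkQ (Function.update v i x j)) = _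
      rw [e]
    rw [h i v] at h2
    have h3 : b.det (Function.update b i (W.mkQ x)) = b.repr (W.mkQ x) i := by
      conv_lhs => rw [← b.sum_repr (W.mkQ x)]
      rw [AlternatingMap.map_update_sum, Finset.sum_eq_single i]
      · rw [AlternatingMap.map_update_smul, Function.update_eq_self, Basis.det_self, smul_eq_mul,
          mul_one]
      · intro j _ hj
        rw [AlternatingMap.map_update_smul, AlternatingMap.map_eq_zero_of_eq _ _ (i := i) (j := j)
          _ (Ne.symm hj), smul_zero]
        rw [Function.update_self, Function.update_of_ne hj]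
      · intro h
        exact absurd (Finset.mem_univ i) h
    rw [← h3, ← h2]
    rfl
  rwa [Submodule.mkQ_apply, Submodule.Quotient.mk_eq_zero] at h1

theorem formOf_update (W : Submodule K V) {x : V} (hx : x ∈ W) (i) (v) :
    formOf W (Function.update v i x) = 0 := by
  change (finBasis K (V ⧸ W)).det (fun j => W.mkQ (Function.update v i x j)) = 0
  refine AlternatingMap.map_coord_zero _ (i := i) ?_
  rw [Function.update_self, Submodule.mkQ_apply, Submodule.Quotient.mk_eq_zero]
  exact hx

end alt

section ops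

variable {K M Γ : Type} [Field K] [Group M] [Group Γ]

namespace Realization

/-- The action of `M`. -/
def hx (A : Realization K M Γ) (m : M) (x : A.V) : A.V := A.hodge m x

/-- The action of `Γ`. -/
def gx (A : Realization K M Γ) (γ : Γ) (x : A.V) : A.V := A.galois γ x

/-- `x` and `y` are multiplied with the same scalar. -/
def Same (A : Realization K M Γ) (x x' y y' : A.V) : Prop := ∃ c : K, x' = c • x ∧ y' = c • y

/-- The Hodge classes (their span over `K`): the vectors fixed by `M`. -/
def Hodge (A : Realization K M Γ) : Set A.V :=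
  {v | ∀ m, A.hx m v = v}

/-- The Tate classes: the vectors fixed by a subgroup of finite index of `Γ`. -/
def Tate (A : Realization K M Γ) : Set A.V :=
  {v | ∃ U : Subgroup Γ, U.index ≠ 0 ∧ ∀ γ ∈ U, A.gx γ v = v}

/-- The Zariski closure of the image of `M`. -/
def MT (A : Realization K M Γ) : Set (LinearMap.GeneralLinearGroup K A.V) :=
  zar (Set.range fun m => A.hodge m)

/-- The intersection of the Zariski closures of the images of the subgroups of finite index of `Γ`,
that is the identity component of the Zariski closure of the image of `Γ`. -/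
def Mon (A : Realization K M Γ) : Set (LinearMap.GeneralLinearGroup K A.V) :=
  {g | ∀ U : Subgroup Γ, U.index ≠ 0 → g ∈ zar ((fun γ => A.galois γ) '' (U : Set Γ))}

/-- The vectors `v` on which `M` acts as on `η` (by scalars). If `A` is the cohomology in degree `2j`
and `η` the `j`-th power of the class of a hyperplane section, these are the Hodge classes. -/
def HodgeLike (A : Realization K M Γ) (η v : A.V) : Prop :=
  ∀ m, A.Same v (A.hx m v) η (A.hx m η)

/-- The vectors `v` on which a subgroup of finite index of `Γ` acts as on `η` (by scalars). If `A` is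
the cohomology in degree `2j` and `η` the `j`-th power of the class of a hyperplane section, these are
the Tate classes. -/
def TateLike (A : Realization K M Γ) (η v : A.V) : Prop :=
  ∃ U : Subgroup Γ, U.index ≠ 0 ∧ ∀ γ ∈ U, A.Same v (A.gx γ v) η (A.gx γ η)

/-- `W` is stable under some subgroup of finite index of `Γ`. -/
def TateStable (A : Realization K M Γ) (W : Submodule K A.V) : Prop :=
  ∃ U : Subgroup Γ, U.index ≠ 0 ∧ ∀ γ ∈ U, ∀ x ∈ W, A.gx γ x ∈ W

/-- `W` is stable under `Γ`. -/
def GaloisStable (A : Realization K M Γ) (W : Submodule K A.V) : Prop :=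
  ∀ γ, ∀ x ∈ W, A.gx γ x ∈ W

/-- `W` is stable under `M`. -/
def HodgeStable (A : Realization K M Γ) (W : Submodule K A.V) : Prop :=
  ∀ m, ∀ x ∈ W, A.hx m x ∈ W

/-- Every subspace which is stable under a subgroup of finite index of `Γ` has a complement with the
same property. In characteristic zero this means that the representation of `Γ` is semisimple. -/
def GaloisSemisimple (A : Realization K M Γ) : Prop :=
  ∀ W, A.TateStable W → ∃ W', A.TateStable W' ∧ IsCompl W W'

end Realization

open Realization

/-- The value at `x` of the linear map `e f`. -/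
def hval {N A B : Realization K M Γ} (e : N.V ≃ₗ[K] (A.V →ₗ[K] B.V)) (f : N.V) (x : A.V) : B.V :=
  e f x

/-- `N` is the space of the linear maps from `A` to `B`, with its natural actions. -/
def IsHom (N A B : Realization K M Γ) : Prop :=
  ∃ e : N.V ≃ₗ[K] (A.V →ₗ[K] B.V),
    (∀ m f x, hval e (N.hx m f) (A.hx m x) = B.hx m (hval e f x)) ∧
    ∀ γ f x, hval e (N.gx γ f) (A.gx γ x) = B.gx γ (hval e f x)

/-- The value at `v` of the alternating form `e f`. -/
def aval {N A : Realization K M Γ} {r : ℕ} (e : N.V ≃ₗ[K] (A.V [⋀^Fin r]→ₗ[K] K)) (f : N.V)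
    (v : Fin r → A.V) : K := e f v

/-- `N` is the space of the alternating forms in `r` variables on `A`, with its natural actions. -/
def IsAlt (N A : Realization K M Γ) (r : ℕ) : Prop :=
  ∃ e : N.V ≃ₗ[K] (A.V [⋀^Fin r]→ₗ[K] K),
    (∀ m f v, aval e (N.hx m f) (fun i => A.hx m (v i)) = aval e f v) ∧
    ∀ γ f v, aval e (N.gx γ f) (fun i => A.gx γ (v i)) = aval e f v

/-- The value at `x` of the function `e f`. -/
def pval {N A : Realization K M Γ} (e : N.V →ₗ[K] (Module.End K A.V → K)) (f : N.V)
    (x : Module.End K A.V) : K := e f x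

/-- `N` is a space of functions on `End A` which contains `f`, and the groups act by the translations
`(g f)(x) = f (x g)`. -/
def IsPoly (N A : Realization K M Γ) (f : Module.End K A.V → K) : Prop :=
  ∃ e : N.V →ₗ[K] (Module.End K A.V → K), Function.Injective (pval e) ∧ (∃ h, pval e h = f) ∧
    (∀ m h x, pval e (N.hx m h) x = pval e h (x * A.hodge m)) ∧
    ∀ γ h x, pval e (N.gx γ h) x = pval e h (x * A.galois γ)

/-- A class of realizations with the following properties: for members `A`, `B` the linear maps from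
`A` to `B` are (isomorphic to) a member, the alternating forms on `A` are, and every polynomial
function on `End A` is contained in a space of functions which is (isomorphic to) a member, for
example in the space of the polynomial functions of degree at most `d`, the sum of the symmetric
powers of degree at most `d` of `dim A` copies of `A`. -/
structure TensorClass (C : Set (Realization K M Γ)) : Prop where
  hom : ∀ A ∈ C, ∀ B ∈ C, ∃ N ∈ C, IsHom N A B
  alt : ∀ A ∈ C, ∀ r, ∃ N ∈ C, IsAlt N A r
  poly : ∀ A ∈ C, ∀ f ∈ polyFun K A.V, ∃ N ∈ C, IsPoly N A f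

/-- Every subspace of a member of `C` which is stable under `M` has a complement which is stable
under `M`. -/
def HodgeSemisimple (C : Set (Realization K M Γ)) : Prop :=
  ∀ A ∈ C, ∀ W, A.HodgeStable W → ∃ W', A.HodgeStable W' ∧ IsCompl W W'

/-- Every line in a member of `C` which is stable under a subgroup of `Γ` of finite index is a
quotient of a member of `C`, as a representation of some subgroup of finite index. -/
def LinesAreQuotients (C : Set (Realization K M Γ)) : Prop :=
  ∀ A ∈ C, ∀ L : Submodule K A.V, finrank K L = 1 → A.TateStable L →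
    ∃ N ∈ C, ∃ f : N.V →ₗ[K] A.V, LinearMap.range f = L ∧
      ∃ U : Subgroup Γ, U.index ≠ 0 ∧ ∀ γ ∈ U, ∀ x, f (N.gx γ x) = A.gx γ (f x)

/-! ### The proof -/

variable {C : Set (Realization K M Γ)}

theorem inv_apply {G V : Type} [Group G] [AddCommGroup V] [Module K V] (α : Representation K G V)
    (g : G) (x : V) : α g⁻¹ (α g x) = x := by
  rw [← Module.End.mul_apply, ← map_mul, inv_mul_cancel, map_one, Module.End.one_apply]

theorem apply_inv {G V : Type} [Group G] [AddCommGroup V] [Module K V] (α : Representation K G V)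
    (g : G) (x : V) : α g (α g⁻¹ x) = x := by
  rw [← Module.End.mul_apply, ← map_mul, mul_inv_cancel, map_one, Module.End.one_apply]

theorem hx_inv (A : Realization K M Γ) (m : M) (x : A.V) : A.hx m (A.hx m⁻¹ x) = x :=
  apply_inv A.hodge m x

theorem gx_inv (A : Realization K M Γ) (γ : Γ) (x : A.V) : A.gx γ (A.gx γ⁻¹ x) = x :=
  apply_inv A.galois γ x

theorem inv_hx (A : Realization K M Γ) (m : M) (x : A.V) : A.hx m⁻¹ (A.hx m x) = x :=
  inv_apply A.hodge m x

theorem hx_add (A : Realization K M Γ) (m : M) (x y : A.V) : A.hx m (x + y) = A.hx m x + A.hx m y :=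
  map_add (A.hodge m) x y

theorem gx_add (A : Realization K M Γ) (γ : Γ) (x y : A.V) : A.gx γ (x + y) = A.gx γ x + A.gx γ y :=
  map_add (A.galois γ) x y

theorem gx_smul (A : Realization K M Γ) (γ : Γ) (c : K) (x : A.V) :
    A.gx γ (c • x) = c • A.gx γ x := map_smul (A.galois γ) c x

theorem IsHom.hodge {N A B : Realization K M Γ} (h : IsHom N A B) : ∃ e : N.V ≃ₗ[K] (A.V →ₗ[K] B.V),
    (∀ f, f ∈ N.Hodge ↔ ∀ m x, e f (A.hx m x) = B.hx m (e f x)) ∧
    (∀ f, f ∈ N.Tate ↔ ∃ U : Subgroup Γ, U.index ≠ 0 ∧ ∀ γ ∈ U, ∀ x,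
      e f (A.gx γ x) = B.gx γ (e f x)) := by
  obtain ⟨e, h1, h2⟩ := h
  simp only [hval] at h1 h2
  refine ⟨e, fun f => forall_congr' fun m => ?_, fun f => exists_congr fun U => and_congr_right
    fun _ => forall_congr' fun γ => imp_congr_right fun _ => ?_⟩
  · constructor
    · intro h x
      rw [← h1, h]
    · intro h
      apply e.injective
      ext y
      rw [← hx_inv A m y, h1, h]
  · constructor
    · intro h x
      rw [← h2, h]
    · intro h
      apply e.injective
      ext y
      rw [← gx_inv A γ y, h2, h]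

/-- If all Tate classes are Hodge classes then the subspaces which are stable under a subgroup of
finite index of `Γ` are stable under `M`. -/
theorem hodgeStable (hC : TensorClass C) (hL : LinesAreQuotients C)
    (h : ∀ A ∈ C, A.Tate ⊆ A.Hodge) {B : Realization K M Γ} (hB : B ∈ C) {W : Submodule K B.V}
    (hW : B.TateStable W) : B.HodgeStable W := by
  obtain ⟨U, hU, hUW⟩ := hW
  obtain ⟨E, hE, e, he1, he2⟩ := hC.alt B hB (finrank K (B.V ⧸ W))
  simp only [aval] at he1 he2
  set ω := e.symm (formOf W) with hω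
  have heω : e ω = formOf W := e.apply_symm_apply _
  have hω0 : ω ≠ 0 := by
    intro h0
    apply formOf_ne W
    rw [← heω, h0, map_zero]
  have hLs : E.TateStable (Submodule.span K {ω}) := by
    refine ⟨U, hU, fun γ hγ x hx => ?_⟩
    obtain ⟨a, rfl⟩ := Submodule.mem_span_singleton.1 hx
    obtain ⟨c, hc⟩ := formOf_comp W (g := B.galois γ⁻¹) (hUW γ⁻¹ (U.inv_mem hγ))
    rw [gx_smul]
    refine Submodule.smul_mem _ _ (Submodule.mem_span_singleton.2 ⟨c, ?_⟩)
    apply e.injective
    ext v
    have h3 := he2 γ ω fun i => B.gx γ⁻¹ (v i)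
    simp only [gx_inv] at h3
    rw [h3, heω, map_smul, heω, ← hc]
    rfl
  obtain ⟨N, hN, f, hf, U', hU', hfU⟩ := hL _ hE _ (finrank_span_singleton hω0) hLs
  obtain ⟨H, hH, hHom⟩ := hC.hom N hN E hE
  obtain ⟨e', h1, h2⟩ := hHom.hodge
  have hfT : e'.symm f ∈ H.Tate := (h2 _).2 ⟨U', hU', by rwa [e'.apply_symm_apply]⟩
  have hfH := (h1 _).1 (h _ hH hfT)
  rw [e'.apply_symm_apply] at hfH
  intro m x hx
  refine mem_of_formOf W fun i v => ?_
  -- `ω` is an eigenvector of `m⁻¹`
  obtain ⟨y, hy⟩ : ω ∈ LinearMap.range f := by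
    rw [hf]
    exact Submodule.mem_span_singleton_self ω
  obtain ⟨c, hc⟩ : ∃ c : K, c • ω = E.hx m⁻¹ ω := by
    have h3 : E.hx m⁻¹ ω ∈ LinearMap.range f := by
      rw [← hy]
      exact ⟨_, hfH m⁻¹ y⟩
    rw [hf] at h3
    exact Submodule.mem_span_singleton.1 h3
  have h4 := he1 m⁻¹ ω
  rw [← hc, map_smul, heω] at h4
  have h5 : ∀ u, formOf W (fun j => B.hx m (u j)) = c * formOf W u := by
    intro u
    have h6 := h4 fun j => B.hx m (u j)
    simp only [inv_hx] at h6
    exact h6.symm
  have h7 : Function.update v i (B.hx m x) =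
      fun j => B.hx m (Function.update (fun j => B.hx m⁻¹ (v j)) i x j) := by
    funext j
    by_cases hj : j = i
    · subst hj
      rw [Function.update_self, Function.update_self]
    · rw [Function.update_of_ne hj, Function.update_of_ne hj, hx_inv]
  rw [h7, h5, formOf_update W hx, mul_zero]

theorem index_top_ne : (⊤ : Subgroup Γ).index ≠ 0 := by
  rw [Subgroup.index_top]
  exact one_ne_zero

theorem MT_le (hC : TensorClass C) (hL : LinesAreQuotients C)
    (h : ∀ A ∈ C, A.Tate ⊆ A.Hodge) {A : Realization K M Γ} (hA : A ∈ C) : A.MT ⊆ A.Mon := by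
  intro g hg U hU f hf hfU
  refine hg f hf ?_
  obtain ⟨N, hN, e, he, ⟨f₀, hf₀⟩, h1, h2⟩ := hC.poly A hA f hf
  have hf₀' : e f₀ = f := hf₀
  subst hf₀'
  simp only [pval] at h1 h2
  let W : Submodule K N.V :=
    { carrier := {h | ∀ γ ∈ U, e h (A.galois γ) = 0}
      zero_mem' := fun γ _ => by rw [map_zero]; rfl
      add_mem' := by
        intro f f' hf hf' γ hγ
        rw [map_add, Pi.add_apply, hf γ hγ, hf' γ hγ, add_zero]
      smul_mem' := by
        intro c f hf γ hγ
        rw [map_smul, Pi.smul_apply, hf γ hγ, smul_zero] }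
  have hW : N.TateStable W := by
    refine ⟨U, hU, fun γ hγ f hf γ' hγ' => ?_⟩
    rw [h2, ← map_mul]
    exact hf _ (U.mul_mem hγ' hγ)
  have hWm := hodgeStable hC hL h hN hW
  rintro _ ⟨m, rfl⟩
  have h3 := hWm m f₀ (fun γ hγ => hfU _ ⟨γ, hγ, rfl⟩) 1 U.one_mem
  rwa [h1, map_one, one_mul] at h3

/-- The polynomial function `x ↦ l (x v) - l v`. -/
theorem fix_mem {V : Type} [AddCommGroup V] [Module K V] (l : Dual K V) (v : V) :
    (fun x : Module.End K V => l (x v) - l v) ∈ polyFun K V := by
  have h1 : (fun x : Module.End K V => l (x v)) ∈ polyFun K V :=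
    Algebra.subset_adjoin ⟨l.comp (LinearMap.applyₗ v), rfl⟩
  have h2 : algebraMap K (Module.End K V → K) (l v) ∈ polyFun K V := Subalgebra.algebraMap_mem _ _
  exact (polyFun K V).sub_mem h1 h2

theorem fix_of_zar {V : Type} [AddCommGroup V] [Module K V] {S : Set (Module.End K V)} {v : V}
    (hv : ∀ s ∈ S, s v = v) {g : LinearMap.GeneralLinearGroup K V} (hg : g ∈ zar S) :
    (g : Module.End K V) v = v := by
  rw [← sub_eq_zero, ← Module.forall_dual_apply_eq_zero_iff K]
  intro l
  rw [map_sub]
  exact hg _ (fix_mem l v) fun s hs => by rw [hv s hs, sub_self]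

/-- The operator of `g` as an element of `GL(V)`. -/
def toGL {G V : Type} [Group G] [AddCommGroup V] [Module K V] (α : Representation K G V) (g : G) :
    LinearMap.GeneralLinearGroup K V where
  val := α g
  inv := α g⁻¹
  val_inv := by rw [← map_mul, mul_inv_cancel, map_one]
  inv_val := by rw [← map_mul, inv_mul_cancel, map_one]

theorem Tate_le {A : Realization K M Γ} (h : A.MT ⊆ A.Mon) : A.Tate ⊆ A.Hodge := by
  rintro v ⟨U, hU, hv⟩ m
  have h1 : toGL A.hodge m ∈ A.MT := fun f _ hf => hf _ ⟨m, rfl⟩
  refine fix_of_zar (g := toGL A.hodge m) ?_ (h h1 U hU)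
  rintro _ ⟨γ, hγ, rfl⟩
  exact hv γ hγ

/-- Projectors which commute with `M`. -/
theorem exists_proj (hs : HodgeSemisimple C) {B : Realization K M Γ} (hB : B ∈ C)
    {W : Submodule K B.V} (hW : B.HodgeStable W) : ∃ f : B.V →ₗ[K] B.V, (∀ x, f x ∈ W) ∧
      (∀ x ∈ W, f x = x) ∧ ∀ m x, f (B.hx m x) = B.hx m (f x) := by
  obtain ⟨W', hW', hc⟩ := hs B hB W hW
  have e1 : ∀ y ∈ W, ∀ z ∈ W', Submodule.projectionOnto W W' hc (y + z) = y := by
    intro y hy z hz
    have h1 := Submodule.projectionOnto_apply_left hc (⟨y, hy⟩ : W)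
    have h2 : Submodule.projectionOnto W W' hc z = 0 := by
      rw [Submodule.projectionOnto_apply_eq_zero_iff]
      exact hz
    rw [map_add, h2, add_zero, h1]
  refine ⟨W.subtype ∘ₗ Submodule.projectionOnto W W' hc, fun x => Submodule.coe_mem _,
    fun x hx => ?_, fun m x => ?_⟩
  · have := e1 x hx 0 W'.zero_mem
    rw [add_zero] at this
    exact this
  · obtain ⟨y, hy, z, hz, rfl⟩ := Submodule.mem_sup.1 (hc.sup_eq_top ▸ Submodule.mem_top :
      x ∈ W ⊔ W')
    change (Submodule.projectionOnto W W' hc (B.hx m (y + z)) : B.V) =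
      B.hx m (Submodule.projectionOnto W W' hc (y + z))
    rw [e1 y hy z hz, hx_add, e1 _ (hW m y hy) _ (hW' m z hz)]

/-- Projectors which commute with a subgroup of finite index of `Γ`. -/
theorem exists_tate_proj (hC : TensorClass C) (hs : HodgeSemisimple C)
    (h : ∀ A ∈ C, A.Hodge ⊆ A.Tate) {A : Realization K M Γ} (hA : A ∈ C) {W : Submodule K A.V}
    (hW : A.HodgeStable W) : ∃ f : A.V →ₗ[K] A.V, (∀ x, f x ∈ W) ∧ (∀ x ∈ W, f x = x) ∧
      ∃ U : Subgroup Γ, U.index ≠ 0 ∧ ∀ γ ∈ U, ∀ x, f (A.gx γ x) = A.gx γ (f x) := by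
  obtain ⟨f, hf1, hf2, hf3⟩ := exists_proj hs hA hW
  obtain ⟨H, hH, hHom⟩ := hC.hom A hA A hA
  obtain ⟨e, h1, h2⟩ := hHom.hodge
  have hfH : e.symm f ∈ H.Hodge := (h1 _).2 (by rwa [e.apply_symm_apply])
  obtain ⟨U, hU, hfU⟩ := (h2 _).1 (h _ hH hfH)
  rw [e.apply_symm_apply] at hfU
  exact ⟨f, hf1, hf2, U, hU, hfU⟩

theorem tateStable (hC : TensorClass C) (hs : HodgeSemisimple C)
    (h : ∀ A ∈ C, A.Hodge ⊆ A.Tate) {B : Realization K M Γ} (hB : B ∈ C) {W : Submodule K B.V}
    (hW : B.HodgeStable W) : B.TateStable W := by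
  obtain ⟨f, hf1, hf2, U, hU, hf3⟩ := exists_tate_proj hC hs h hB hW
  refine ⟨U, hU, fun γ hγ x hx => ?_⟩
  have h1 := hf3 γ hγ x
  rw [hf2 x hx] at h1
  rw [← h1]
  exact hf1 _

theorem Mon_le (hC : TensorClass C) (hs : HodgeSemisimple C)
    (h : ∀ A ∈ C, A.Hodge ⊆ A.Tate) {A : Realization K M Γ} (hA : A ∈ C) : A.Mon ⊆ A.MT := by
  intro g hg f hf hfM
  obtain ⟨N, hN, e, he, ⟨f₀, hf₀⟩, h1, h2⟩ := hC.poly A hA f hf
  have hf₀' : e f₀ = f := hf₀
  subst hf₀'
  simp only [pval] at h1 h2
  let W : Submodule K N.V :=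
    { carrier := {h | ∀ m, e h (A.hodge m) = 0}
      zero_mem' := fun γ => by rw [map_zero]; rfl
      add_mem' := by
        intro f f' hf hf' m
        rw [map_add, Pi.add_apply, hf m, hf' m, add_zero]
      smul_mem' := by
        intro c f hf m
        rw [map_smul, Pi.smul_apply, hf m, smul_zero] }
  have hW : N.HodgeStable W := by
    intro m f hf m'
    rw [h1, ← map_mul]
    exact hf _
  obtain ⟨U, hU, hWU⟩ := tateStable hC hs h hN hW
  refine hg U hU _ hf ?_
  rintro _ ⟨γ, hγ, rfl⟩
  have h3 := hWU γ hγ f₀ (fun m => hfM _ ⟨m, rfl⟩) 1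
  rwa [h2, map_one, one_mul] at h3

/-- The ideal of the image of a subgroup. -/
def idl (A : Realization K M Γ) (U : Subgroup Γ) : Ideal (polyFun K A.V) where
  carrier := {f | ∀ γ ∈ U, (f : Module.End K A.V → K) (A.galois γ) = 0}
  zero_mem' := fun γ _ => rfl
  add_mem' := by
    intro f f' hf hf' γ hγ
    change (f : Module.End K A.V → K) (A.galois γ) + (f' : Module.End K A.V → K) (A.galois γ) = 0
    rw [hf γ hγ, hf' γ hγ, add_zero]
  smul_mem' := by
    intro c f hf γ hγ
    change (c : Module.End K A.V → K) (A.galois γ) * (f : Module.End K A.V → K) (A.galois γ) = 0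
    rw [hf γ hγ, mul_zero]

/-- For a sufficiently small subgroup of finite index the Zariski closure of the image is the
intersection `Mon` of all these Zariski closures. -/
theorem exists_small (A : Realization K M Γ) : ∃ U₀ : Subgroup Γ, U₀.index ≠ 0 ∧
    ∀ U : Subgroup Γ, U.index ≠ 0 → idl A U ≤ idl A U₀ := by
  have hN := polyFun_noeth (K := K) (V := A.V)
  have hne : ({I | ∃ U : Subgroup Γ, U.index ≠ 0 ∧ I = idl A U} :
      Set (Ideal (polyFun K A.V))).Nonempty := ⟨_, ⊤, index_top_ne, rfl⟩
  obtain ⟨_, ⟨U₀, hU₀, rfl⟩, hmax⟩ := set_has_maximal_iff_noetherian.2 hN _ hne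
  refine ⟨U₀, hU₀, fun U hU => ?_⟩
  have h1 : idl A U₀ ≤ idl A (U ⊓ U₀) := fun f hf γ hγ => hf γ hγ.2
  have h2 : idl A U ≤ idl A (U ⊓ U₀) := fun f hf γ hγ => hf γ hγ.1
  have h3 := hmax _ ⟨U ⊓ U₀, Subgroup.index_inf_ne_zero hU hU₀, rfl⟩
  have h4 : idl A U₀ = idl A (U ⊓ U₀) := by
    by_contra h
    exact h3 (lt_of_le_of_ne h1 h)
  rw [h4]
  exact h2

theorem Hodge_le {A : Realization K M Γ} (h : A.Mon ⊆ A.MT) : A.Hodge ⊆ A.Tate := by
  intro v hv
  obtain ⟨U₀, hU₀, hmin⟩ := exists_small A
  refine ⟨U₀, hU₀, fun γ hγ => ?_⟩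
  have h1 : toGL A.galois γ ∈ A.Mon := by
    intro U hU f hf hfU
    have h2 : (⟨f, hf⟩ : polyFun K A.V) ∈ idl A U := fun δ hδ => hfU _ ⟨δ, hδ, rfl⟩
    exact hmin U hU h2 γ hγ
  refine fix_of_zar (g := toGL A.galois γ) ?_ (h h1)
  rintro _ ⟨m, rfl⟩
  exact hv m

/-- A subspace which is stable under `Γ` and has a projector which commutes with a subgroup of
finite index has a projector which commutes with `Γ`. -/
theorem average [CharZero K] {A : Realization K M Γ} {W : Submodule K A.V}
    (hW : ∀ γ, ∀ x ∈ W, A.galois γ x ∈ W) {f : A.V →ₗ[K] A.V} (hf1 : ∀ x, f x ∈ W)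
    (hf2 : ∀ x ∈ W, f x = x) {U : Subgroup Γ} (hU : U.index ≠ 0)
    (hfU : ∀ γ ∈ U, ∀ x, f (A.galois γ x) = A.galois γ (f x)) :
    ∃ W', (∀ γ, ∀ x ∈ W', A.galois γ x ∈ W') ∧ IsCompl W W' := by
  have : U.FiniteIndex := ⟨hU⟩
  have : Fintype (Γ ⧸ U) := U.fintypeQuotientOfFiniteIndex
  let Φ : Γ ⧸ U → (A.V →ₗ[K] A.V) := fun q => A.galois q.out ∘ₗ f ∘ₗ A.galois (q.out)⁻¹
  have hΦ : ∀ γ : Γ, ∀ x, Φ (γ : Γ ⧸ U) x = A.galois γ (f (A.galois γ⁻¹ x)) := by
    intro γ x
    obtain ⟨u, hu⟩ := QuotientGroup.mk_out_eq_mul U γ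
    change A.galois ((γ : Γ ⧸ U)).out (f (A.galois ((γ : Γ ⧸ U)).out⁻¹ x)) = _
    rw [hu, mul_inv_rev, map_mul, map_mul, Module.End.mul_apply, Module.End.mul_apply,
      ← hfU _ u.2, apply_inv]
  have hsum : ∀ (δ : Γ) (x : A.V), A.galois δ ((∑ q, Φ q) (A.galois δ⁻¹ x)) = (∑ q, Φ q) x := by
    intro δ x
    rw [LinearMap.sum_apply, LinearMap.sum_apply, map_sum,
      ← Equiv.sum_comp (MulAction.toPerm δ) fun q => Φ q x]
    refine Finset.sum_congr rfl fun q _ => ?_
    induction q using QuotientGroup.induction_on with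
    | H γ =>
      have e1 : (MulAction.toPerm δ) ((γ : Γ ⧸ U)) = ((δ * γ : Γ) : Γ ⧸ U) := rfl
      rw [e1, hΦ, hΦ, mul_inv_rev, map_mul, map_mul, Module.End.mul_apply, Module.End.mul_apply]
  set n : K := (Fintype.card (Γ ⧸ U) : K) with hn
  have hn0 : n ≠ 0 := by
    rw [hn]
    exact_mod_cast Fintype.card_ne_zero
  set p : A.V →ₗ[K] A.V := n⁻¹ • ∑ q, Φ q with hp
  have hp1 : ∀ x, p x ∈ W := by
    intro x
    refine W.smul_mem _ ?_
    rw [LinearMap.sum_apply]
    exact W.sum_mem fun q _ => hW _ _ (hf1 _)
  have hp2 : ∀ x ∈ W, p x = x := by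
    intro x hx
    rw [hp, LinearMap.smul_apply, LinearMap.sum_apply]
    have e1 : ∀ q, Φ q x = x := by
      intro q
      change A.galois q.out (f (A.galois q.out⁻¹ x)) = x
      rw [hf2 _ (hW _ x hx), apply_inv]
    rw [Finset.sum_congr rfl fun q _ => e1 q, Finset.sum_const, Finset.card_univ, ← Nat.cast_smul_eq_nsmul K,
      smul_smul, inv_mul_cancel₀ hn0, one_smul]
  have hp3 : ∀ (δ : Γ) (x : A.V), p (A.galois δ x) = A.galois δ (p x) := by
    intro δ x
    rw [hp, LinearMap.smul_apply, LinearMap.smul_apply, map_smul]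
    congr 1
    rw [← hsum δ, inv_apply]
  refine ⟨LinearMap.ker p, fun γ x hx => ?_, ?_⟩
  · rw [LinearMap.mem_ker] at hx ⊢
    rw [hp3, hx, map_zero]
  · exact LinearMap.IsProj.isCompl ⟨hp1, hp2⟩

theorem scale {V : Type} [AddCommGroup V] [Module K V] {η v : V} {S : Set (Module.End K V)}
    (hη : η ≠ 0) (hS : ∀ s ∈ S, ∃ c : K, s v = c • v ∧ s η = c • η)
    {g : LinearMap.GeneralLinearGroup K V} (hg : g ∈ zar S)
    (hgη : ∃ c : K, (g : Module.End K V) η = c • η) :
    ∃ c : K, (g : Module.End K V) v = c • v ∧ (g : Module.End K V) η = c • η := by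
  obtain ⟨c, hc⟩ := hgη
  refine ⟨c, ?_, hc⟩
  obtain ⟨l', hl'⟩ : ∃ l' : Dual K V, l' η = 1 := by
    by_contra hcon
    push Not at hcon
    refine hη ((Module.forall_dual_apply_eq_zero_iff K η).1 fun l => ?_)
    by_contra h0
    exact hcon ((l η)⁻¹ • l) (by rw [LinearMap.smul_apply, smul_eq_mul, inv_mul_cancel₀ h0])
  rw [← sub_eq_zero, ← Module.forall_dual_apply_eq_zero_iff K]
  intro l
  have h1 : (fun x : Module.End K V => l (x v) - l v * l' (x η)) ∈ polyFun K V := by
    refine Algebra.subset_adjoin ⟨l.comp (LinearMap.applyₗ v) - l v • l'.comp (LinearMap.applyₗ η), ?_⟩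
    funext x
    simp
  have h2 := hg _ h1 (by
    intro s hs
    obtain ⟨a, ha, hb⟩ := hS s hs
    simp only [ha, hb, map_smul, smul_eq_mul, hl']
    ring)
  simp only [hc, map_smul, smul_eq_mul, hl', mul_one] at h2
  rw [map_sub, map_smul, smul_eq_mul]
  linear_combination h2

theorem stable_of_zar {V : Type} [AddCommGroup V] [Module K V] {S : Set (Module.End K V)}
    {W : Submodule K V} (hS : ∀ s ∈ S, ∀ x ∈ W, s x ∈ W) {g : LinearMap.GeneralLinearGroup K V}
    (hg : g ∈ zar S) {x : V} (hx : x ∈ W) : (g : Module.End K V) x ∈ W := by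
  by_contra hcon
  obtain ⟨l, hl1, hl2⟩ := Submodule.exists_dual_map_eq_bot_of_notMem hcon inferInstance
  refine hl1 (hg (fun y => l (y x)) (Algebra.subset_adjoin ⟨l.comp (LinearMap.applyₗ x), rfl⟩) ?_)
  intro s hs
  have h1 : l (s x) ∈ W.map l := ⟨_, hS s hs x hx, rfl⟩
  rwa [hl2, Submodule.mem_bot] at h1

theorem hodgeStable_of_MT_le {A : Realization K M Γ} (h : A.MT ⊆ A.Mon) {W : Submodule K A.V}
    (hW : A.TateStable W) : A.HodgeStable W := by
  obtain ⟨U, hU, hUW⟩ := hW
  intro m x hx
  have h1 : toGL A.hodge m ∈ A.MT := fun f _ hf => hf _ ⟨m, rfl⟩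
  refine stable_of_zar (g := toGL A.hodge m) ?_ (h h1 U hU) hx
  rintro _ ⟨γ, hγ, rfl⟩
  exact hUW γ hγ

theorem semisimple_of (hC : TensorClass C) (hs : HodgeSemisimple C)
    (h : ∀ A ∈ C, A.Hodge ⊆ A.Tate) (h' : ∀ A ∈ C, A.MT ⊆ A.Mon) {A : Realization K M Γ}
    (hA : A ∈ C) : A.GaloisSemisimple := by
  intro W hW
  obtain ⟨f, hf1, hf2, U, hU, hf3⟩ := exists_tate_proj hC hs h hA
    (hodgeStable_of_MT_le (h' A hA) hW)
  refine ⟨LinearMap.ker f, ⟨U, hU, fun γ hγ x hx => ?_⟩, LinearMap.IsProj.isCompl ⟨hf1, hf2⟩⟩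
  rw [LinearMap.mem_ker] at hx ⊢
  rw [hf3 γ hγ, hx]
  exact map_zero (A.galois γ)

theorem lines_of_semisimple (h : ∀ A ∈ C, A.GaloisSemisimple) : LinesAreQuotients C := by
  intro A hA L _ hLs
  obtain ⟨L', ⟨U', hU', hL'⟩, hc⟩ := h A hA L hLs
  obtain ⟨U, hU, hUL⟩ := hLs
  have e1 : ∀ y ∈ L, ∀ z ∈ L', Submodule.projectionOnto L L' hc (y + z) = y := by
    intro y hy z hz
    have h1 := Submodule.projectionOnto_apply_left hc (⟨y, hy⟩ : L)
    have h2 : Submodule.projectionOnto L L' hc z = 0 := by
      rw [Submodule.projectionOnto_apply_eq_zero_iff]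
      exact hz
    rw [map_add, h2, add_zero, h1]
  refine ⟨A, hA, L.subtype ∘ₗ Submodule.projectionOnto L L' hc, ?_, U ⊓ U',
    Subgroup.index_inf_ne_zero hU hU', fun γ hγ x => ?_⟩
  · apply le_antisymm
    · rintro _ ⟨x, rfl⟩
      exact Submodule.coe_mem _
    · intro x hx
      refine ⟨x, ?_⟩
      have := e1 x hx 0 L'.zero_mem
      rw [add_zero] at this
      exact this
  · obtain ⟨y, hy, z, hz, rfl⟩ := Submodule.mem_sup.1 (hc.sup_eq_top ▸ Submodule.mem_top :
      x ∈ L ⊔ L')
    change (Submodule.projectionOnto L L' hc (A.gx γ (y + z)) : A.V) =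
      A.gx γ (Submodule.projectionOnto L L' hc (y + z))
    rw [e1 y hy z hz, gx_add, e1 _ (hUL γ hγ.1 y hy) _ (hL' γ hγ.2 z hz)]

end ops

/-- All Tate classes are Hodge classes. -/
def TateInHodge {K M Γ : Type} [Field K] [Group M] [Group Γ] (C : Set (Realization K M Γ)) : Prop :=
  ∀ A ∈ C, A.Tate ⊆ A.Hodge

/-- All Hodge classes are Tate classes. -/
def HodgeInTate {K M Γ : Type} [Field K] [Group M] [Group Γ] (C : Set (Realization K M Γ)) : Prop :=
  ∀ A ∈ C, A.Hodge ⊆ A.Tate

/-- The Hodge classes are the Tate classes. -/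
def SameClasses {K M Γ : Type} [Field K] [Group M] [Group Γ] (C : Set (Realization K M Γ)) : Prop :=
  ∀ A ∈ C, A.Hodge = A.Tate

/-- The group `MT` is contained in the group `Mon`. -/
def MTInMon {K M Γ : Type} [Field K] [Group M] [Group Γ] (C : Set (Realization K M Γ)) : Prop :=
  ∀ A ∈ C, A.MT ⊆ A.Mon

/-- The group `Mon` is contained in the group `MT`. -/
def MonInMT {K M Γ : Type} [Field K] [Group M] [Group Γ] (C : Set (Realization K M Γ)) : Prop :=
  ∀ A ∈ C, A.Mon ⊆ A.MT

/-- The groups `Mon` and `MT` are equal. -/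
def SameGroups {K M Γ : Type} [Field K] [Group M] [Group Γ] (C : Set (Realization K M Γ)) : Prop :=
  ∀ A ∈ C, A.Mon = A.MT

/-- The representations of `Γ` are semisimple, in the form `Realization.GaloisSemisimple`. -/
def AllSemisimple {K M Γ : Type} [Field K] [Group M] [Group Γ] (C : Set (Realization K M Γ)) :
    Prop :=
  ∀ A ∈ C, A.GaloisSemisimple

/-- `η` is not zero and an eigenvector of all elements of `M` and `Γ`. -/
def IsEigen {K M Γ : Type} [Field K] [Group M] [Group Γ] (A : Realization K M Γ) (η : A.V) : Prop :=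
  η ≠ 0 ∧ (∀ m, ∃ c : K, A.hx m η = c • η) ∧ ∀ γ, ∃ c : K, A.gx γ η = c • η

/-- **Theorem.** Let `K` be a field of characteristic zero, `M` and `Γ` groups, and `C` a class of
finite-dimensional vector spaces with representations of `M` and `Γ` which contains the spaces of the
linear maps between its members, of the alternating forms on its members and of the polynomial
functions on their endomorphism rings (`TensorClass`); the representations of `M` are semisimple. Let `Hodge` be the space of the vectors fixed by `M`, `Tate` the space of the vectors fixed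
by a subgroup of finite index of `Γ`, `MT` the Zariski closure of the image of `M` and `Mon` the
intersection of the Zariski closures of the images of the subgroups of finite index of `Γ`.
(1) If `LinesAreQuotients C` then `Tate ≤ Hodge` for all members of `C` if and only if `MT ⊆ Mon` for
all members. Without this condition, `Hodge ≤ Tate` for all members if and only if `Mon ⊆ MT` for all
members.
(2) If `LinesAreQuotients C` then `Hodge = Tate` for all members if and only if `Mon = MT` for all
members. If `Hodge = Tate` for all members then `LinesAreQuotients C`, the semisimplicity of the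
representations of `Γ`, `MT ⊆ Mon` and `Mon = MT` are equivalent. If `Mon = MT` for all members
then the representations of `Γ` are semisimple.
(3) If `η ≠ 0` is an eigenvector of `M` and `Γ` in a space `A` and `MT ⊆ Mon` (`Mon ⊆ MT`) then the
vectors on which a subgroup of finite index of `Γ` acts as on `η` are vectors on which `M` acts as on
`η` (and conversely). -/
theorem result {K M Γ : Type} [Field K] [CharZero K] [Group M] [Group Γ]
    (C : Set (Realization K M Γ)) (hC : TensorClass C) (hs : HodgeSemisimple C) :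
    -- (1) the two inclusions
    (LinesAreQuotients C → (TateInHodge C ↔ MTInMon C)) ∧ (HodgeInTate C ↔ MonInMT C) ∧
    -- (2) equality and semisimplicity
    (LinesAreQuotients C → (SameClasses C ↔ SameGroups C)) ∧
    (SameClasses C → List.TFAE [LinesAreQuotients C, AllSemisimple C, MTInMon C, SameGroups C]) ∧
    (SameGroups C → ∀ A ∈ C, ∀ W, A.GaloisStable W → ∃ W', A.GaloisStable W' ∧ IsCompl W W') ∧
    -- (3) twists
    (∀ (A : Realization K M Γ) (η : A.V), IsEigen A η →
      (A.MT ⊆ A.Mon → ∀ v, A.TateLike η v → A.HodgeLike η v) ∧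
      (A.Mon ⊆ A.MT → ∀ v, A.HodgeLike η v → A.TateLike η v)) := by
  have h1 : LinesAreQuotients C → (TateInHodge C ↔ MTInMon C) :=
    fun hL => ⟨fun h A hA => MT_le hC hL h hA, fun h A hA => Tate_le (h A hA)⟩
  have h2 : HodgeInTate C ↔ MonInMT C :=
    ⟨fun h A hA => Mon_le hC hs h hA, fun h A hA => Hodge_le (h A hA)⟩
  refine ⟨h1, h2, fun hL => ⟨fun h A hA => ?_, fun h A hA => ?_⟩, fun h => ?_,
    fun h A hA W hW => ?_, fun A η ⟨hη, hM, hG⟩ => ⟨?_, ?_⟩⟩
  · exact Set.Subset.antisymm (h2.1 (fun B hB => (h B hB).le) A hA)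
      ((h1 hL).1 (fun B hB => (h B hB).ge) A hA)
  · exact Set.Subset.antisymm (Hodge_le (h A hA).le) (Tate_le (h A hA).ge)
  · have h3 := h2.1 fun A hA => (h A hA).le
    tfae_have 1 → 3 := fun hL => (h1 hL).1 fun A hA => (h A hA).ge
    tfae_have 3 → 4 := fun h4 A hA => Set.Subset.antisymm (h3 A hA) (h4 A hA)
    tfae_have 4 → 2 := fun h4 A hA => semisimple_of hC hs (fun B hB => (h B hB).le)
      (fun B hB => (h4 B hB).ge) hA
    tfae_have 2 → 1 := lines_of_semisimple
    tfae_finish
  · have hWH := hodgeStable_of_MT_le (h A hA).ge ⟨⊤, index_top_ne, fun γ _ => hW γ⟩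
    obtain ⟨f, hf1, hf2, U, hU, hf3⟩ := exists_tate_proj hC hs
      (h2.2 fun B hB => (h B hB).le) hA hWH
    exact average hW hf1 hf2 hU hf3
  · rintro h v ⟨U, hU, hv⟩ m
    have h3 : toGL A.hodge m ∈ A.MT := fun f _ hf => hf _ ⟨m, rfl⟩
    refine scale (g := toGL A.hodge m) hη ?_ (h h3 U hU) (hM m)
    rintro _ ⟨γ, hγ, rfl⟩
    exact hv γ hγ
  · intro h v hv
    obtain ⟨U₀, hU₀, hmin⟩ := exists_small A
    refine ⟨U₀, hU₀, fun γ hγ => ?_⟩
    have h3 : toGL A.galois γ ∈ A.Mon := by
      intro U hU f hf hfU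
      have h4 : (⟨f, hf⟩ : polyFun K A.V) ∈ idl A U := fun δ hδ => hfU _ ⟨δ, hδ, rfl⟩
      exact hmin U hU h4 γ hγ
    refine scale (g := toGL A.galois γ) hη ?_ (h h3) (hG γ)
    rintro _ ⟨m, rfl⟩
    exact hv m

end

end Pool.Agent.Results.MP_6c781a_ag.ClassesAndGroups
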