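import Mathlib
import Pool.Agent.H926.A.Tt
import Pool.Agent.H926.T.Main7
import Pool.Agent.H926.B.Fac

/-!
# When are all Tate classes on all powers of an abelian variety generated by divisors and Weil classes?

Let `X` be an abelian variety over a number field `L ⊆ ℂ` (or over a finitely generated field), of any
dimension, with any endomorphisms. `H = H_1(X(ℂ), ℚ)`, `T` is the tangent space, `per : H → T` the period
map, `V = ℚ_ℓ ⊗ H` the rational Tate module with the action `ρ` of the Galois group `Γ`, `χ` the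
cyclotomic character; `V ^ n` is the Tate module of the power `X ^ n`, and the classes in
`H^{2 m}(X ^ n, ℚ_ℓ)(m)` are the alternating forms in `2 m` variables on `V ^ n`.

The *Lefschetz Lie algebra* of `X` consists of the operators on `H` which commute with all endomorphisms
of `X` and kill all divisor classes. Let `⁅x, y⁆` be the commutators of its elements.

**Theorem.** The following are equivalent:

1. For all `n` and `m`, each Tate class in `H^{2 m}(X ^ n, ℚ_ℓ)(m)` is a `ℚ_ℓ`-combination of products of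
   divisor classes and pull-backs of Weil classes.
2. All commutators `⁅x, y⁆` kill all Tate tensors, that is, the Lie algebra of the `ℓ`-adic monodromy
   group contains the commutators of the Lefschetz Lie algebra.
3. The Mumford–Tate conjecture is true for `X` (all Tate tensors are combinations of Hodge tensors), and
   the Hodge Lie algebra contains the commutators of the Lefschetz Lie algebra.

The three statements are true if all simple factors of `X` over `ℂ` are factors of one complex abelian
variety `A` of dimension at most seven which has no simple factors of dimension four or six with only the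
trivial endomorphisms (there is no condition on the dimension of `X` or on the other endomorphism
algebras; for instance `X` is a power of `A`, or a product of powers of abelian subvarieties of `A`).

So a large `ℓ`-adic monodromy group implies the Mumford–Tate conjecture at the prime `ℓ` for `X` and
all powers of `X` and for all finite extensions; no knowledge of the Hodge group or of the connected
centre of the monodromy group (the torus of the determinants) is needed for this. And the Tate conjecture
for all powers of `X` follows from the algebraicity of Weil classes *for this reason* exactly for the `X`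
of the theorem.

The hypotheses on `ρ` are the known properties of the Tate module (`IsTateModule`: Weil pairing, Faltings,
Hodge–Tate decomposition, Serre, Pink) and Deligne's theorem that Hodge tensors are Tate tensors
(`HodgeTensorsAreTate`), which is used only for the second half of 3.

Proof. `1 ⇒ 2`: the commutators kill the Weil classes and the divisor classes of all powers; alternate.
`2 ⇒ 3`: the trace form is nondegenerate on the Lefschetz Lie algebra (positivity of the polarization),
and an element which is orthogonal to all endomorphisms of `X` is a combination of commutators. The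
conjugates `D` of the complex structure and the Hodge–Tate involutions `D'` have the same traces with the
endomorphisms, so `D - D'` is a combination of commutators; it kills the Tate tensors, and so does `D'`,
hence `D` does: the Hodge Lie algebra kills all Tate tensors, which are therefore combinations of Hodge
tensors. `3 ⇒ 1`: the Hodge classes on `X ^ n` are generated by divisors and Weil classes by
`MP_9d7ff6_ag.LefschetzCommutators`. The last part: `Pool.Agent.H926.T.mt7` (Tate tensors are combinations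
of Hodge tensors) and `Pool.Agent.H926.B.br_seven` (the Hodge Lie algebra contains the commutators, as
`X` has no factor of Mumford's type).
-/

namespace Pool.Agent.Results.MP_6c781a_ag.LefschetzCommutators

open Module TensorProduct
open Pool.Agent.H204R3.CM (IsHodge HodgeMul)
open Pool.Agent.Y90 (AV)
open Pool.Agent.Y90.St (IsHom IsPolarization)
open Pool.Agent.Y4.P (WeilRing)
open Pool.Agent.R915 (IsFactor)
open Pool.Agent.Y224.TS.St (IsTateModule)

section hodge

variable {H T : Type} [AddCommGroup H] [Module ℚ H] [AddCommGroup T] [Module ℂ T]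

/-- The period map of the power `X ^ n`. -/
def power (per : H →+ T) (n : ℕ) : (Fin n → H) →+ (Fin n → T) where
  toFun v := fun i => per (v i)
  map_zero' := by
    funext i
    exact map_zero per
  map_add' v w := by
    funext i
    exact map_add per _ _

/-- The operator `x` on `H_1(X, ℚ)` belongs to the **Lefschetz Lie algebra** of `X`: it commutes with
all endomorphisms of `X` and kills (as a derivation) all Hodge classes of degree two. -/
def InLefschetz (per : H →+ T) (x : H →ₗ[ℚ] H) : Prop :=
  (∀ a : H →ₗ[ℚ] H, IsHom per per a → x ∘ₗ a = a ∘ₗ x) ∧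
    ∀ f : H [⋀^Fin 2]→ₗ[ℚ] ℚ, IsHodge per f → ∀ v w, f ![x v, w] + f ![v, x w] = 0

/-- The operator `z` on `H_1(X, ℚ)` belongs to the **Hodge Lie algebra** of `X`: to each rational Lie
algebra `L` of operators on `H_1(X, ℚ)` the real span of which contains the complex structure. -/
def InHodgeLie (per : H →+ T) (z : H →ₗ[ℚ] H) : Prop :=
  ∀ L : Submodule ℚ (H →ₗ[ℚ] H), (∀ y ∈ L, ∀ y' ∈ L, y ∘ₗ y' - y' ∘ₗ y ∈ L) →
    (∃ (m : ℕ) (r : Fin m → ℝ) (y : Fin m → (H →ₗ[ℚ] H)), (∀ j, y j ∈ L) ∧
      ∀ u : H, Complex.I • per u = ∑ j, (r j : ℂ) • per (y j u)) → z ∈ L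

end hodge

section tate

variable {H T : Type} [AddCommGroup H] [Module ℚ H] [AddCommGroup T] [Module ℂ T] {ℓ : ℕ}
  [Fact ℓ.Prime] {Γ : Type} [Group Γ] (per : H →+ T) (ρ : Representation ℚ_[ℓ] Γ (ℚ_[ℓ] ⊗[ℚ] H))
  (χ : Γ →* ℚ_[ℓ])

/-- The form `φ` in `2 m` variables on `V = ℚ_ℓ ⊗ H_1(X, ℚ)` is a **Tate tensor**: a subgroup of finite
index of `Γ` acts on it through the `m`-th power of the cyclotomic character `χ`. -/
def IsTateTensor (m : ℕ) (φ : (Fin (2 * m) → ℚ_[ℓ] ⊗[ℚ] H) → ℚ_[ℓ]) : Prop :=
  ∃ Δ : Subgroup Γ, Δ.FiniteIndex ∧ ∀ g ∈ Δ, ∀ v, φ (fun k => ρ g (v k)) = χ g ^ m * φ v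

/-- The form `φ` in `2 m` variables on `V ^ n` is a **Tate class on the power** `X ^ n`. -/
def IsTateClass (n m : ℕ) (φ : (Fin (2 * m) → Fin n → ℚ_[ℓ] ⊗[ℚ] H) → ℚ_[ℓ]) : Prop :=
  ∃ Δ : Subgroup Γ, Δ.FiniteIndex ∧ ∀ g ∈ Δ, ∀ v, φ (fun k i => ρ g (v k i)) = χ g ^ m * φ v

/-- The form `φ` on `V` is a `ℚ_ℓ`-linear combination of **Hodge tensors** of `X`. -/
def HodgeCombination (m : ℕ) (φ : (Fin (2 * m) → ℚ_[ℓ] ⊗[ℚ] H) → ℚ_[ℓ]) : Prop :=
  ∃ (N : ℕ) (c : Fin N → ℚ_[ℓ]) (f : Fin N → MultilinearMap ℚ (fun _ : Fin (2 * m) => H) ℚ),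
    (∀ j, HodgeMul per (f j)) ∧ ∀ v : Fin (2 * m) → H,
      φ (fun k => 1 ⊗ₜ v k) = ∑ j, c j * (f j v : ℚ)

/-- The form `φ` on `V ^ n` is a `ℚ_ℓ`-linear combination of classes in the ring generated by **divisor
classes and Weil classes** on `X ^ n`. -/
def WeilCombination (n m : ℕ) (φ : (Fin (2 * m) → Fin n → ℚ_[ℓ] ⊗[ℚ] H) → ℚ_[ℓ]) : Prop :=
  ∃ (N : ℕ) (c : Fin N → ℚ_[ℓ]) (f : Fin N → ((Fin n → H) [⋀^Fin (2 * m)]→ₗ[ℚ] ℚ)),
    (∀ j, WeilRing (power per n) (Fin (2 * m)) (f j)) ∧ ∀ v : Fin (2 * m) → Fin n → H,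
      φ (fun k i => 1 ⊗ₜ v k i) = ∑ j, c j * (f j v : ℚ)

/-- The operator `z` on `H`, extended to `V`, **kills** the form `φ` on `V` (as a derivation). -/
def KillsTensor (z : H →ₗ[ℚ] H) (m : ℕ) (φ : (Fin (2 * m) → ℚ_[ℓ] ⊗[ℚ] H) → ℚ_[ℓ]) : Prop :=
  ∀ v, ∑ k, φ (Function.update v k (z.baseChange ℚ_[ℓ] (v k))) = 0

/-- **Deligne's theorem**: Hodge tensors are Tate tensors. -/
def HodgeTensorsAreTate : Prop :=
  ∀ (m : ℕ) (f : MultilinearMap ℚ (fun _ : Fin (2 * m) => H) ℚ)
    (φ : MultilinearMap ℚ_[ℓ] (fun _ : Fin (2 * m) => ℚ_[ℓ] ⊗[ℚ] H) ℚ_[ℓ]), HodgeMul per f →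
    (∀ v : Fin (2 * m) → H, φ (fun k => 1 ⊗ₜ v k) = (f v : ℚ)) → IsTateTensor ρ χ m φ

/-- All **Tate classes** on all powers `X ^ n` are combinations of products of divisor classes and Weil
classes. -/
def TateClassesAreWeil : Prop :=
  ∀ (n m : ℕ) (φ : (Fin n → ℚ_[ℓ] ⊗[ℚ] H) [⋀^Fin (2 * m)]→ₗ[ℚ_[ℓ]] ℚ_[ℓ]),
    IsTateClass ρ χ n m φ → WeilCombination per n m φ

/-- The **commutators** of the Lefschetz Lie algebra kill all Tate tensors. -/
def CommutatorsKillTate : Prop :=
  ∀ x y : H →ₗ[ℚ] H, InLefschetz per x → InLefschetz per y → ∀ (m : ℕ)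
    (φ : MultilinearMap ℚ_[ℓ] (fun _ : Fin (2 * m) => ℚ_[ℓ] ⊗[ℚ] H) ℚ_[ℓ]),
      IsTateTensor ρ χ m φ → KillsTensor (x ∘ₗ y - y ∘ₗ x) m φ

/-- The **Mumford–Tate conjecture** for `X`: all Tate tensors are combinations of Hodge tensors. -/
def MumfordTate : Prop :=
  ∀ (m : ℕ) (φ : MultilinearMap ℚ_[ℓ] (fun _ : Fin (2 * m) => ℚ_[ℓ] ⊗[ℚ] H) ℚ_[ℓ]),
    IsTateTensor ρ χ m φ → HodgeCombination per m φ

/-- The Hodge Lie algebra contains the commutators of the Lefschetz Lie algebra. -/
def CommutatorsInHodge : Prop :=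
  ∀ x y : H →ₗ[ℚ] H, InLefschetz per x → InLefschetz per y → InHodgeLie per (x ∘ₗ y - y ∘ₗ x)

end tate

/-- All simple factors of `A` of dimensions four and six have endomorphisms besides the scalars. -/
def NoTrivialEndomorphisms (A : AV) : Prop :=
  ∀ Y, IsFactor Y A → finrank ℂ Y.T = 4 ∨ finrank ℂ Y.T = 6 →
    ∃ f, IsHom Y.per Y.per f ∧ ∀ c : ℚ, f ≠ c • 1

/-- **All Tate classes on all powers of an abelian variety `X` are generated by divisor classes and Weil
classes, if and only if the commutators of the Lefschetz Lie algebra kill all Tate tensors, if and only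
if the Mumford–Tate conjecture holds for `X` and the Hodge Lie algebra contains the commutators.** This is
true if all simple factors of `X` are factors of one abelian variety of dimension at most seven without
simple factors of dimension four or six with only the trivial endomorphisms. -/
theorem result (X : AV) (E : X.H → X.H → ℚ) (hE : IsPolarization X.per E)
    (ℓ : ℕ) [Fact ℓ.Prime] [Algebra ℚ_[ℓ] ℂ] [Algebra.IsAlgebraic ℚ_[ℓ] ℂ]
    {Γ : Type} [Group Γ] (ρ : Representation ℚ_[ℓ] Γ (ℚ_[ℓ] ⊗[ℚ] X.H)) (χ : Γ →* ℚ_[ℓ])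
    (hρ : IsTateModule X.per E ρ χ) (hD : HodgeTensorsAreTate X.per ρ χ) :
    List.TFAE [TateClassesAreWeil X.per ρ χ, CommutatorsKillTate X.per ρ χ,
      MumfordTate X.per ρ χ ∧ CommutatorsInHodge X.per] ∧
    ∀ A : AV, finrank ℂ A.T ≤ 7 → NoTrivialEndomorphisms A → (∀ Y, IsFactor Y X → IsFactor Y A) →
      TateClassesAreWeil X.per ρ χ ∧ CommutatorsKillTate X.per ρ χ ∧
        MumfordTate X.per ρ χ ∧ CommutatorsInHodge X.per := by
  have hX : Pool.Agent.Y90.St.IsAV X.per := ⟨X.finH, X.finT, X.span, X.rank, X.pol⟩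
  have ht : List.TFAE [TateClassesAreWeil X.per ρ χ, CommutatorsKillTate X.per ρ χ,
      MumfordTate X.per ρ χ ∧ CommutatorsInHodge X.per] :=
    Pool.Agent.H926.A.tate_tfae hX hE hρ hD
  refine ⟨ht, fun A h7 hA hf => ?_⟩
  have h3 : MumfordTate X.per ρ χ ∧ CommutatorsInHodge X.per := by
    refine ⟨fun m φ hφ => ?_, ?_⟩
    · exact Pool.Agent.H926.T.mt7 A X h7 hA hf hE hρ (Nat.card_fin (2 * m)) φ hφ
    · refine Pool.Agent.H926.B.br_seven A X h7 hf ?_
      rintro Y hY ⟨-, h4, hs, -⟩
      obtain ⟨f, hf', hfn⟩ := hA Y (hf Y hY) (Or.inl h4)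
      obtain ⟨c, hc⟩ := hs f hf'
      exact hfn c (LinearMap.ext fun v => hc v)
  exact ⟨(ht.out 0 2).2 h3, (ht.out 1 2).2 h3, h3⟩

end Pool.Agent.Results.MP_6c781a_ag.LefschetzCommutators
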