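import Pool.Agent.H852.J.D7

/-!
# Tate classes and Hodge classes on the powers of the Jacobians of `y ^ 2 = g_1(g_2(...g_N(x)))`, for 100 percent
# of the sequences of polynomials

Let `N ≥ 1`, let `d_1, ..., d_N ≥ 3` be ANY odd numbers, and let `K` be a number field. An integral vector `x` with the
coordinates `x (n, i)`, `i < d_n`, gives the monic polynomials

  `g_n = X ^ d_n + ∑ i < d_n, x (n, i) X ^ i`

(`polynomial`) and the hyperelliptic curve `C_x : y ^ 2 = g_1(g_2(... g_N(X)))` (`composition`), of the genus
`(d_1 ⋯ d_N - 1) / 2`.

**Theorem.** Let `Z` be ANY pure motive over `K`, for instance `H ^ w` of a smooth projective variety, with a lattice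
`τ` over `ℤ_2`. For 100 percent of the integral vectors `x`, ordered by the maximum of the absolute values of the
coordinates, `EveryPrime` is true for `C_x` and `Z`: for EVERY prime number `ℓ` all Tate classes on the products
`J(C_x) ^ m × Z`, in all degrees, are linear combinations of products of Tate classes of degree two
on `J(C_x) ^ m` (algebraic by Faltings) and Tate classes of `Z`.

So for almost all `x`, all `ℓ` and all `j` and `k` the Tate classes of `Y = J(C_x)` and of all the products of its
factors are spanned by the classes of algebraic cycles, and `H_{j,k} = T_{j,k}`: the conjecture of Mumford and Tate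
is true for them.

The Jacobian `J(C_x)` is NOT simple for `N ≥ 2`, over any field: it is isogenous to the product of the `N`
Prym varieties `B_n` of the coverings `C_n → C_{n-1}`, where `C_n : y ^ 2 = g_1(...g_n(X))`, of dimension
`(d_1 ⋯ d_n - d_1 ⋯ d_{n-1}) / 2`. The `B_n`, `n ≥ 2`, are not Jacobians and not principally polarized in
general, and their fields of 2-division points generate extensions with small Galois groups (wreath
products of symmetric groups), so the theorems for large Galois groups of the polynomial (Zarhin, Hall, Yu, and the
results for random polynomials, `N = 1`) do not apply. The theorem contains: the Lie algebra of the `ℓ`-adic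
representation of `J(C_x)` is as large as possible, the product of the `N` symplectic Lie algebras and the
homotheties.

The definitions `EveryPrime` and `IsLattice` are those of the module
`Pool.Graph.R_pool_sql_team_seeded_63374d34.Results.MP_640417_ag.HyperellipticEveryPrime`: the data of `EveryPrime`
are the Frobenius polynomials `P v` of the action on the 2-adic Tate module of the Jacobian (the group of
points of the Jacobian is the class group of the ring `F[x, y]`) and `Q v` of `Z`, pure of weights `1` and
`w`, outside of a finite set of places, and the conclusion concerns, for all `ℓ`, all the representations over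
`ℚ_ℓ` with the properties of `V_ℓ` of the abelian variety (Weil pairing, semisimplicity, Frobenius polynomials
`P v`) and all `ℓ`-adic realizations of `Z` (Frobenius polynomials `Q v`).

Idea of the proof. At a place `v` above a prime number `p` where exactly two roots of `f_n = g_1 ∘ ... ∘ g_n`
collide, and nothing happens in the fibres at the other levels (one node at the level `n`), the inertia group gives an
element of the Galois group whose square root exchanges the two roots, and permutes the roots above them at all higher
levels by an involution; the square acts on the 2-adic Tate modules of the Prym varieties modulo four in a known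
way: as a transvection for the level `n` and by linking elements for the higher levels
(`Pool.Agent.H852.J.LinkElt`, `nodePlace_of_loc`, `link_of_place`). If the Galois group is transitive on
the roots and doubly transitive on the fibres, such elements for `n = 1, ..., N` generate enough of
the product of the symplectic groups (`everyPrime_of_links`). The existence for almost all `x`: modulo a prime `p` (and
`p ^ 2`) the probability of one node at the level `n` is at least `c / p`, and the probability of
certificates of transitivity by Frobenius elements (a simple root `e` of `f_{n-1}` modulo `p` with `g_n - e`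
irreducible, or a linear factor times an irreducible polynomial) is at least `c > 0`; here all counts are elementary
(`node_count`, `irr_count`, `root_count`, `etale_count`), and `∏ (1 - c / p) = 0`.
-/

set_option autoImplicit false

namespace Pool.Agent.Results.MP_6c781a_ag.RandomCompositions

open Polynomial NumberField
open Pool.Agent.Results.MP_640417_ag.HyperellipticEveryPrime (AbsoluteGaloisGroup IsLattice
  EveryPrime)

/-- The monic polynomial `g n = X ^ (d n) + ∑ x (n, i) X ^ i` of the degree `d n`. -/
noncomputable def polynomial (K : Type) [Field K] {N : ℕ} {d : Fin N → ℕ}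
    (x : (Σ n : Fin N, Fin (d n)) → ℤ) (n : Fin N) : K[X] :=
  X ^ d n + ∑ i : Fin (d n), C ((x ⟨n, i⟩ : ℤ) : K) * X ^ (i : ℕ)

/-- The composition `g 0 ∘ g 1 ∘ ... ∘ g (N - 1)`. -/
noncomputable def composition {K : Type} [Field K] : (N : ℕ) → (Fin N → K[X]) → K[X]
  | 0, _ => X
  | N + 1, g => (composition N fun n => g n.castSucc).comp (g (Fin.last N))

/-- The property `P` holds for 100 percent of the integral vectors, ordered by height: for every `ε > 0` the
number of the vectors `x` with coordinates of absolute value at most `H` for which `P` is false is at
most `ε (2 H + 1) ^ k` for all large `H`, where `k` is the number of the coordinates. -/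
def AlmostAll {κ : Type} [Fintype κ] (P : (κ → ℤ) → Prop) : Prop :=
  ∀ ε : ℝ, 0 < ε → ∃ H₀ : ℕ, ∀ H : ℕ, H₀ ≤ H →
    ({x : κ → ℤ | (∀ k, |x k| ≤ H) ∧ ¬ P x}.ncard : ℝ) ≤ ε * (2 * H + 1) ^ Fintype.card κ

theorem composition_eq {K : Type} [Field K] (G : ℕ → K[X]) (N : ℕ) :
    composition N (fun n : Fin N => G n) = Pool.Agent.H852.J.comps G N := by
  induction N with
  | zero => rfl
  | succ N ih =>
    rw [composition, Pool.Agent.H852.J.comps, ← ih]
    rfl

/-- **The conjectures of Tate and Mumford-Tate for 100 percent of the Jacobians of the curves
`y ^ 2 = g_1(g_2(...g_N(x)))`, and for their products with any motive.** -/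
theorem result {K : Type} [Field K] [NumberField K] {N : ℕ} (hN : 1 ≤ N) (d : Fin N → ℕ)
    (h3 : ∀ n, 3 ≤ d n) (hodd : ∀ n, Odd (d n)) {e : ℕ}
    (τ : AbsoluteGaloisGroup K →* Matrix (Fin e) (Fin e) ℚ_[2]) (hτ : IsLattice τ) :
    AlmostAll fun x : (Σ n : Fin N, Fin (d n)) → ℤ =>
      EveryPrime (fun _ : Unit => composition N (polynomial K x)) τ := by
  have hpol : ∀ x : (Σ n : Fin N, Fin (d n)) → ℤ, composition N (polynomial K x) =
      Pool.Agent.H852.J.comps
        (Pool.Agent.H852.J.toQ K (Pool.Agent.H852.J.polyOf d x)) N := by
    intro x
    rw [← composition_eq]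
    congr 1
    funext n
    rw [Pool.Agent.H852.J.toQ, Pool.Agent.H852.J.polyOf_lt, Pool.Agent.H852.J.mkP_map]
    rfl
  simp only [hpol]
  intro ε hε
  obtain ⟨H₀, h⟩ := Pool.Agent.H852.J.almostAll_comps K τ hτ hN h3 hodd ε hε
  refine ⟨H₀, fun H hH => le_trans (le_of_eq ?_) (h H hH)⟩
  have h1 : ∀ F : Finset ((Σ n : Fin N, Fin (d n)) → ℤ),
      {x : (Σ n : Fin N, Fin (d n)) → ℤ | (∀ k, |x k| ≤ (H : ℤ)) ∧
        ¬ EveryPrime (fun _ : Unit => Pool.Agent.H852.J.comps
          (Pool.Agent.H852.J.toQ K (Pool.Agent.H852.J.polyOf d x)) N) τ} = ↑F →
      ({x : (Σ n : Fin N, Fin (d n)) → ℤ | (∀ k, |x k| ≤ (H : ℤ)) ∧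
        ¬ EveryPrime (fun _ : Unit => Pool.Agent.H852.J.comps
          (Pool.Agent.H852.J.toQ K (Pool.Agent.H852.J.polyOf d x)) N) τ}.ncard : ℝ) =
        F.card := by
    intro F hF
    rw [hF, Set.ncard_coe_finset]
  refine h1 _ ?_
  rw [Finset.coe_filter]
  ext x
  rw [Set.mem_ofPred_eq, Set.mem_ofPred_eq, Pool.Agent.H852.J.mem_boxK]
  simp only [abs_le]

end Pool.Agent.Results.MP_6c781a_ag.RandomCompositions
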