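import Mathlib
import Pool.Agent.H855.HG.MT
import Pool.Agent.H855.HG.Cyclo

/-!
# The conjecture of Mumford and Tate for the products of **every** variety with the varieties of CM type:
finitely many exceptional vectors

Let `K i` (`i` in any set `I`) be CM fields, for instance **all** CM fields. A function `v` on the
complex embeddings of a field is odd if `v (conj φ) = - v φ`. A CM type `Φ` of `K i` is the same
thing as the odd function `x` with the value `1` on `Φ` and `- 1` on the conjugate embeddings. Let
`w i / 2` be a lower bound for the dimensions of the nonzero spaces of odd rational functions on the
embeddings of `K i` which are stable under the automorphisms of `ℂ`: `w i = 2` is always possible,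
and `w i = [K i : ℚ]` if the space of all odd functions is irreducible (`IsWeight`).

**Galois types.** Let `L` be a number field contained in `ℂ`, `ℓ` a prime number, and let `Γ` be the
absolute Galois group of `L`. We use an isomorphism of `ℚ̄_ℓ` with `ℂ` (only its restriction `ι` to
`ℚ_ℓ` appears in the statement). By the theorem of Artin the `ℓ`-adic cohomology of a smooth
projective variety `Y` over `L` is the rational Betti cohomology with coefficients extended to
`ℚ_ℓ`; so `Y` is given by a rational vector space `ℚ^B` with its Hodge operator (multiplication by
`p - q` on `H^(p, q)`) and the action of `Γ` on `ℚ_ℓ^B` (`GaloisSpace`).

The algebraic Hecke characters of the finite extensions of `L` (Weil, Serre) give characters of open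
subgroups of `Γ` with values in `ℚ̄_ℓ = ℂ`, which are determined, on some smaller subgroup of finite
index, by their infinity types. We write the infinity type as a pair `(m, d)`, where the integer `m`
is the weight and `d` is a function on the automorphisms of `ℂ`, such that the character of a
one-dimensional piece of the cohomology in degree `m`, whose conjugate under `σ` has the type `(p,
q)`, has the type `(m, d)` with `d σ = p - q`; the characters and their formal properties (products,
the cyclotomic character, the character is determined by the type and conversely) are the structure
`HeckeCharacters`. A vector `w` of the cohomology with coefficients in `ℚ̄_ℓ = ℂ` has the Galois
type `(m, d)` (`HasGaloisType`) if it is homogeneous of degree `m` and a subgroup of finite index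
acts on it through the character of the type `(m, d)`. These vectors generate the `ℓ`-adic part of
CM type (`galPart`). The Tate classes of codimension `j` are the vectors with the Galois type `(2 j,
0)` and with coefficients in `ℚ_ℓ`.

**Hodge types.** The vector `w` has the types `d` (`HasTypes`) if for each automorphism `σ` of the
field `ℂ` the conjugate `σ w` (the conjugate of the coordinates in a rational basis) is a sum of
classes of types `(p, q)` with `p - q = d σ`. These vectors generate the part of CM type (`cmPart`).
The Hodge classes have the types `d = 0`. For arbitrary `Y` no relation between the Hodge types and
the Galois types is known.

**The varieties `X`.** Let `x j` be integral odd functions on the complex embeddings of fields `L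
j`, each one of the `K i`, `j` in a finite set. Let `X` be a smooth projective variety over `L` of
CM type (`HasCM`): the cohomology is generated by vectors which have Hodge types `d` and a Galois
type `(m, d)` with the same `d` (the theorem of Shimura and Taniyama says that this is true for
abelian varieties with complex multiplication). We suppose that for all vectors with types `d` a
multiple of `d` is a sum `σ ↦ ∑ m (j, ψ) * x j (σ ψ)` over the embeddings `ψ` of the fields `L j`
(`IsGeneratedBy`). For instance `X` can be **any** abelian variety which over a finite extension of
`L` is isogenous to a product of powers of abelian varieties of CM types `(L j, Φ j)`, or a variety
whose cohomology is built from such abelian varieties, like the Fermat hypersurfaces or K3 surfaces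
with complex multiplication. The Hodge classes on `X` can be exotic (not polynomials in divisor
classes).

**The theorem.** For every `Y` there are two finite sets `E` and `E'` of pairs `(i, v)`, where `v`
is an odd function, not zero, on the complex embeddings of `K i`, which depend only on `Y`, `ℓ` and
the fields `K i`, with the following properties.

* The vectors `v` in `E` come from the Hodge types of `Y`, and `∑ w i + h ≤ c`, the sum over the
  elements of `E`, where `h` is the dimension of the space of the Hodge classes (of all
  codimensions), and `c` the dimension of the part of CM type, of the cohomology of `Y`
  (`IsSmallFor`).
* The vectors `v` in `E'` come from the Galois types of `Y`, and `|E'| + t ≤ c'`, where `t` is the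
  dimension of the space of the Tate classes (of all codimensions), and `c'` the dimension of the
  `ℓ`-adic part of CM type, of the cohomology of `Y` (`IsSmallForGalois`).
* For all families `x j` such that no vector of `E` is a combination of the `x j`, and for **all**
  `X` as above (`HodgeOnProducts`): the Hodge classes on `X × Y` are sums of products of Hodge
  classes on `X` and `Y`; all Hodge classes of codimension `j` on `X × Y` are Tate classes if and
  only if this is true for `Y` in the codimensions `j - i`, for all `i` such that there are nonzero
  Hodge classes of codimension `i` on `X`; and all Hodge classes on `X × Y` are Tate classes if and
  only if this is true for `Y`.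
* For all families `x j` such that no vector of `E'` is a combination of the `x j`, and for **all**
  `X` as above (`TateOnProducts`): the Tate classes on `X × Y` are sums of products of **Hodge**
  classes on `X` and Tate classes on `Y`; all Tate classes of codimension `j` on `X × Y` are
  combinations of Hodge classes if and only if this is true for `Y` in the codimensions `j - i`, for
  all `i` such that there are nonzero Hodge classes of codimension `i` on `X`; and all Tate classes
  on `X × Y` are combinations of Hodge classes if and only if this is true for `Y`.
* Hence, outside of the union of `E` and `E'`, **the spaces generated by the Hodge classes and by
  the Tate classes of codimension `j` on `X × Y` are equal if and only if this is true for `Y` in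
  the codimensions `j - i` as above, and the conjecture of Mumford and Tate (question 1) is true for
  `X × Y` if and only if it is true for `Y`** (`MumfordTateOnProducts`).

A vector `v` on the embeddings of a field `K` is a combination of the `x j` (`IsComb`) if it is the
sum of the images of the `x j` under equivariant maps: `v φ = ∑ t φ (j, ψ) * x j ψ` with rational
numbers `t φ (j, ψ)` which are invariant under the automorphisms of `ℂ`, odd in `ψ`, and zero if the
fields `K` and `L j` are unrelated (there are no nonzero equivariant maps between their odd
functions). So if the fields of the elements of the set of exceptional vectors are unrelated to the
`L j` the condition is satisfied; and if the odd functions on the embeddings of `K i` are absolutely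
irreducible an element `(i, v)` excludes at most one CM type `Φ` of `K i` and its conjugate, for the
varieties `X` generated by one CM type of `K i`. (For the items on sums of products exceptions are
necessary: `X` and `Y` can have common simple factors of their cohomology, and then there are Hodge
and Tate classes on `X × Y` which are not sums of products.)

In question 1 the variety is a power `Y^k`; the theorem can be applied to the powers: if `X` is
generated by the functions `x j` so are its powers, and `(X × Y)^k = X^k × Y^k`. So for each `k`
question 1 for `X` and `Y`, for this `k`, is reduced to `Y`, outside of finitely many exceptional
vectors. For instance let `Y` be **any** variety with `H = T` for `Y` itself (for example a K3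
surface, or a product of curves of low genus): then `H = T` for `X × Y`, in all codimensions.

What is known: if `X` and `Y` are abelian varieties (or their motives are abelian and of certain
types) with the conjecture of Mumford and Tate for all their powers then it is true for `X × Y`
(Commelin, without exceptions); more generally, if the Hodge classes and the Tate classes on **all
powers** of `Y` agree one can use the groups. Here `Y` is arbitrary, only one variety `Y` and not
its powers is considered, and there are the two inclusions separately and the statements for single
codimensions. The results `SmallCoreFields` of this run and `CMTypesTimes` (library) are about
nondegenerate CM types of special fields, respectively almost all CM types. The result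
`TimesCMVarieties` on MP_4e1cf2_ag has the same engine for the Hodge classes; the Galois types and
the comparison with the Tate classes are new here.

The proof for the Tate classes. The spaces of the vectors with given Galois types `(m, d)` are
linearly independent, since different types have different characters on each subgroup of finite
index (`galSpace_indep`); so there are at most `c' - t` nonzero `d` for `Y` (`card_galTypes`). Take
a basis `e k` of the cohomology of `X` of vectors with the types `(m k, d k)`, and write a Tate
class of codimension `j` on `X × Y` as `∑ e k ⊗ y k`. Then the `y k` have the Galois types `(2 j - m
k, - d k)` (`isTateOfProducts`). Some multiple of `d k` is a sum of values `x j (σ ψ)`; since the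
functions `x j` are odd, `- d k` is the value of an odd relation with rational coefficients. For
each `d` which is such a value for some family, there is one vector `v` (`exists_vector`) whose
translates are combinations of the translates of `d`; and if another family has `d` as a value of a
relation then `v` is a combination of that family (`isComb_of`: one projects orthogonally to the
space of the trivial relations). So outside of the exceptional vectors `d k = 0` or `y k = 0` for
all `k`; then `m k` is even and `e k` and `y k` are Tate classes with coefficients in `ℂ`, and one
descends to `ℚ_ℓ` with the rows and columns of the class. The proof for the Hodge classes is similar
(`exists_vectors`). The theorem of Pohlmann for `X` (`hodgeR_eq_tate`: the Hodge classes generate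
the Tate classes): a space stable under the automorphisms of `ℂ`, whose fixed field is `ℚ`
(`exists_rat_of_fixed`), is generated by rational vectors (`descent`).
-/

set_option autoImplicit false

namespace Pool.Agent.Results.MP_6c781a_ag.TimesCMVarieties

open NumberField Pool.Agent.H855.CM Pool.Agent.H855.HG

/-- **The conjecture of Mumford and Tate for the products `X × Y` of every smooth projective variety `Y` over
a number field `L` with all varieties `X` of CM type outside of finitely many exceptional vectors.** -/
theorem result (L : Type) [Field L] [NumberField L] (ℓ : ℕ) [Fact ℓ.Prime] (ι : ℚ_[ℓ] →+* ℂ)
    (A : HeckeCharacters (Field.absoluteGaloisGroup L) ι (cyclo L ℓ))
    {I : Type} (K : I → Type) [∀ i, Field (K i)] [∀ i, NumberField (K i)]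
    [∀ i, IsCMField (K i)] (w : I → ℕ) (hw : ∀ i, IsWeight (K i) (w i)) (B : Type) [Fintype B]
    (Y : GaloisSpace (Field.absoluteGaloisGroup L) ℚ_[ℓ] B) :
    ∃ E E' : Finset (Σ i, ((K i →+* ℂ) → ℝ)),
      IsSmallFor w Y.toHodgeSpace E ∧ IsSmallForGalois A Y E' ∧
      ForAllWithCM A K E (fun _ _ X => HodgeOnProducts (cyclo L ℓ) X Y) ∧
      ForAllWithCM A K E' (fun _ _ X => TateOnProducts (cyclo L ℓ) X Y) ∧
      ∀ E'' : Finset (Σ i, ((K i →+* ℂ) → ℝ)), E ⊆ E'' → E' ⊆ E'' →
        ForAllWithCM A K E'' (fun _ _ X => MumfordTateOnProducts (cyclo L ℓ) X Y) :=
  exists_vectors_mt K w hw A Y

end Pool.Agent.Results.MP_6c781a_ag.TimesCMVarieties
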